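import Mathlib
import Pool.Agent.Run7.h157.Main1

/-!
Let `(e_n)` be an unconditional basis of a Banach space `X` such that every subsequence of `(e_n)`
has a block sequence equivalent to `(e_n)`. Then there is a comeager set of block sequences any two
of which are uniformly equivalent up to a permutation, and the isomorphism relation `Is` is
comeager, in particular not meager, in `b(X) ^ 2`.
-/

open Run7.h157 in
theorem Pool.Agent.Results.MP_e76fc4_an.EquivBlockMinimal.result
    {𝕜 : Type*} [RCLike 𝕜] {X : Type*} [NormedAddCommGroup X] [NormedSpace 𝕜 X] [CompleteSpace X]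
    -- an unconditional basis `e_n = b n` of the Banach space `X`
    (b : UnconditionalSchauderBasis ℕ 𝕜 X)
    -- every subsequence of `(e_n)` has a block sequence equivalent to `(e_n)`
    (h : ∀ n : ℕ → ℕ, StrictMono n → ∃ z : ℕ → X, IsBlockSeq 𝕜 (fun k => b (n k)) z ∧
      SeqEquiv 𝕜 z b)
    -- the countable field `Q`
    (Q : Subfield 𝕜) (hQ : IsAdmissible (b : ℕ → X) Q) :
    (∃ C : ℝ, ∃ G ∈ residual (BlockSpace (b : ℕ → X) Q),
      (∀ x ∈ G, ∀ z : BlockSpace (b : ℕ → X) Q, ∃ n : ℕ → ℕ, StrictMono n ∧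
        SeqEquivWith 𝕜 C (fun k => x.seq (n k)) z.seq) ∧
      ∀ x ∈ G, ∀ y ∈ G, ∃ π : Equiv.Perm ℕ, SeqEquivWith 𝕜 C (fun k => x.seq (π k)) y.seq) ∧
    Is (b : ℕ → X) Q ∈ residual (BlockSpace (b : ℕ → X) Q × BlockSpace (b : ℕ → X) Q) ∧
    ¬ IsMeagre (Is (b : ℕ → X) Q) :=
  main1 b h Q hQ
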