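import Mathlib
import Pool.Agent.Run7.h157.Main2

/-!
Let `X` be a Banach space with a Schauder basis `(e_n)` such that every subsequence of `(e_n)` has
a block sequence whose closed span is isomorphic to `X` (this holds when `X` is block-minimal).
Then, for one constant `C`, the generic block sequence of `b(X)` has a subsequence whose closed
span is `C`-isomorphic to `X`.
-/

open Run7.h157 in
theorem Pool.Agent.Results.MP_e76fc4_an.GenericSubsequence.result
    {𝕜 : Type*} [RCLike 𝕜] {X : Type*} [NormedAddCommGroup X] [NormedSpace 𝕜 X] [CompleteSpace X]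
    -- a Schauder basis `e_n = b n` of the Banach space `X`
    (b : SchauderBasis 𝕜 X)
    -- every subsequence of `(e_n)` has a block sequence whose closed span is isomorphic to `X`
    (h : ∀ n : ℕ → ℕ, StrictMono n → ∃ z : ℕ → X, IsBlockSeq 𝕜 (fun k => b (n k)) z ∧
      Nonempty (X ≃L[𝕜] closedSpan 𝕜 z))
    -- the countable field `Q`
    (Q : Subfield 𝕜) (hQ : IsAdmissible (b : ℕ → X) Q) :
    ∃ C : ℝ, ∃ G ∈ residual (BlockSpace (b : ℕ → X) Q), ∀ x ∈ G,
      ∃ n : ℕ → ℕ, StrictMono n ∧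
        ∃ T : X ≃L[𝕜] closedSpan 𝕜 (fun k => x.seq (n k)),
          (∀ v, ‖T v‖ ≤ C * ‖v‖) ∧ ∀ w, ‖T.symm w‖ ≤ C * ‖w‖ :=
  main2 b h Q hQ
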