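import Mathlib
import Pool.Agent.Run7.h157.G.Main

/-!
A Banach space `X` with a Schauder basis which is block-minimal with respect to this basis, and
for which the isomorphism relation `Is` on the block sequences is meager in `b(X) ^ 2`.
-/

open Run7.h157 in
theorem Pool.Agent.Results.MP_e76fc4_an.MeagerBlockMinimal.result :
    ∃ (X : Type) (_ : NormedAddCommGroup X) (_ : NormedSpace ℝ X) (_ : CompleteSpace X)
      -- a Schauder basis `e_n = b n` of the real Banach space `X`
      (b : SchauderBasis ℝ X),
      -- `X` is block-minimal with respect to `(e_n)`: every block subspace (the closed span of a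
      -- block sequence `y`) contains a block subspace (the closed span of a block sequence `z` of
      -- `y`) isomorphic to `X`
      (∀ y : ℕ → X, IsBlockSeq ℝ (b : ℕ → X) y → ∃ z : ℕ → X, IsBlockSeq ℝ y z ∧
        Nonempty (X ≃L[ℝ] closedSpan ℝ z)) ∧
      -- there is a countable field `Q` as in the definition of `b(X)`
      (∃ Q : Subfield ℝ, IsAdmissible (b : ℕ → X) Q) ∧
      -- for each such field `Q` the relation `Is` is meager in `b(X) ^ 2`
      ∀ Q : Subfield ℝ, IsAdmissible (b : ℕ → X) Q → IsMeagre (Is (b : ℕ → X) Q) :=
  G.main
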